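import Pool.Agent.V8H35.TF.Sv

/-!
# The uniform upper bound for the number of the primes `q ≤ U` with `(c q)² + l²` a prime
-/

set_option autoImplicit false

namespace Pool.Agent.V8H35.TF

open Finset Pool.Agent.Y959.Sv

/-- powers of the logarithm -/
lemma log_sq_le {x : ℝ} (hx : 1 ≤ x) : (Real.log x) ^ 2 ≤ 16 * √x := by
  have h0 : 0 ≤ Real.log x := Real.log_nonneg hx
  have h1 := Real.log_le_rpow_div (show 0 ≤ x by linarith) (show (0 : ℝ) < 1 / 4 by norm_num)
  have h2 : Real.log x ≤ 4 * x ^ (1 / 4 : ℝ) := by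
    refine h1.trans (le_of_eq ?_)
    ring
  calc (Real.log x) ^ 2 ≤ (4 * x ^ (1 / 4 : ℝ)) ^ 2 := pow_le_pow_left₀ h0 h2 2
    _ = 16 * (x ^ (1 / 4 : ℝ)) ^ 2 := by ring
    _ = 16 * √x := by
        rw [Real.sqrt_eq_rpow, ← Real.rpow_natCast, ← Real.rpow_mul (by linarith)]
        norm_num

lemma sqrt_le_div {x : ℝ} (hx : 1 < x) : √x ≤ 16 * (x / (Real.log x) ^ 2) := by
  have h0 : 0 < Real.log x := Real.log_pos hx
  rw [← mul_div_assoc, le_div_iff₀ (by positivity)]
  have h1 := log_sq_le hx.le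
  calc √x * Real.log x ^ 2 ≤ √x * (16 * √x) := by gcongr
    _ = 16 * (√x * √x) := by ring
    _ = 16 * x := by rw [Real.mul_self_sqrt (by linarith)]

open Classical in
/-- **the uniform bound** -/
theorem D_bound {B : ℝ} (hB : ∀ z : ℕ, ∏ p ∈ (Icc 3 z).filter Nat.Prime, gf p ≤ B) :
    ∃ C : ℝ, 0 < C ∧ ∀ c l U : ℕ, (c = 1 ∨ c = 2) → 0 < l → 2 ≤ U →
      (#((range (U + 1)).filter (fun q => q.Prime ∧ ((c * q) ^ 2 + l ^ 2).Prime)) : ℝ) ≤
        C * ((l : ℝ) / Nat.totient l) ^ 3 * (U / (Real.log U) ^ 2) := by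
  obtain ⟨K, z0, hK, hup⟩ := up_sieve 3
  obtain ⟨z, hz⟩ : ∃ z : ℕ, z = max z0 2 := ⟨_, rfl⟩
  have hz0 : z0 ≤ z := by rw [hz]; exact le_max_left _ _
  have hz2 : 2 ≤ z := by rw [hz]; exact le_max_right _ _
  obtain ⟨C1, hC1, hprod⟩ := prod_le hB z hz2
  have hKR : (1 : ℝ) ≤ K := by exact_mod_cast hK
  obtain ⟨C2, hC2⟩ : ∃ C2 : ℝ, C2 = 2 * (2 * K * Real.log 4) ^ 2 := ⟨_, rfl⟩
  have hlog4 : 0 < Real.log 4 := Real.log_pos (by norm_num)
  have hC20 : 0 < C2 := by rw [hC2]; positivity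
  refine ⟨48 + 32 * K ^ 2 * C1 + C2, by positivity, fun c l U hc hl hU => ?_⟩
  have hUR : (2 : ℝ) ≤ U := by exact_mod_cast hU
  have hlogU : 0 < Real.log U := Real.log_pos (by linarith)
  have hr1 : 1 ≤ ((l : ℝ) / Nat.totient l) ^ 3 := one_le_pow₀ (one_le_ratio hl)
  obtain ⟨R, hR⟩ : ∃ R : ℝ, R = ((l : ℝ) / Nat.totient l) ^ 3 := ⟨_, rfl⟩
  rw [← hR] at hr1 ⊢
  obtain ⟨T, hT⟩ : ∃ T : ℝ, T = (U : ℝ) / (Real.log U) ^ 2 := ⟨_, rfl⟩
  have hT0 : 0 < T := by rw [hT]; positivity
  rw [← hT]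
  obtain ⟨x, hx⟩ : ∃ x : ℝ, x = (U : ℝ) ^ (1 / (2 * K) : ℝ) := ⟨_, rfl⟩
  have hx0 : 0 < x := by rw [hx]; positivity
  have hlogx : Real.log x = Real.log U / (2 * K) := by
    rw [hx, Real.log_rpow (by linarith)]
    ring
  have htriv : (#((range (U + 1)).filter (fun q => q.Prime ∧ ((c * q) ^ 2 + l ^ 2).Prime)) : ℝ) ≤
      2 * U := by
    have h1 : #((range (U + 1)).filter (fun q => q.Prime ∧ ((c * q) ^ 2 + l ^ 2).Prime)) ≤ U + 1 :=
      (card_filter_le _ _).trans (by simp)
    have h2 : (#((range (U + 1)).filter (fun q => q.Prime ∧ ((c * q) ^ 2 + l ^ 2).Prime)) : ℝ) ≤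
        U + 1 := by exact_mod_cast h1
    linarith
  rcases lt_or_ge x 4 with hx4 | hx4
  · -- small `U`
    have h1 : Real.log U ≤ 2 * K * Real.log 4 := by
      have h2 : Real.log x ≤ Real.log 4 := Real.log_le_log hx0 hx4.le
      rw [hlogx, div_le_iff₀ (by positivity)] at h2
      linarith
    have h2 : (Real.log U) ^ 2 ≤ (2 * K * Real.log 4) ^ 2 := pow_le_pow_left₀ hlogU.le h1 2
    have h3 : 2 * (U : ℝ) ≤ C2 * T := by
      rw [hC2, hT, ← mul_div_assoc, le_div_iff₀ (by positivity)]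
      nlinarith
    refine htriv.trans (h3.trans ?_)
    have h4 : C2 ≤ (48 + 32 * (K : ℝ) ^ 2 * C1 + C2) * R := by
      have h5 : C2 ≤ 48 + 32 * (K : ℝ) ^ 2 * C1 + C2 := by
        have : 0 ≤ 32 * (K : ℝ) ^ 2 * C1 := by positivity
        linarith
      calc C2 ≤ (48 + 32 * (K : ℝ) ^ 2 * C1 + C2) * 1 := by linarith
        _ ≤ _ := by gcongr
    gcongr
  · -- large `U`
    obtain ⟨y, hy⟩ : ∃ y : ℕ, y = ⌊x⌋₊ := ⟨_, rfl⟩
    have hyx : (y : ℝ) ≤ x := by rw [hy]; exact Nat.floor_le hx0.le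
    have hyx2 : x / 2 ≤ y := by
      have : x - 1 < y := by rw [hy]; exact Nat.sub_one_lt_floor x
      linarith
    have hy3 : 3 ≤ y := by
      rw [hy]
      exact Nat.le_floor (by push_cast; linarith)
    have hyR : (3 : ℝ) ≤ y := by exact_mod_cast hy3
    have hxU : x ^ (2 * K) = U := by
      rw [hx, ← Real.rpow_natCast, ← Real.rpow_mul (by linarith)]
      push_cast
      rw [one_div, inv_mul_cancel₀ (by positivity), Real.rpow_one]
    have hyU : y ^ (2 * K) ≤ U := by
      have h1 : (y : ℝ) ^ (2 * K) ≤ U := by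
        rw [← hxU]
        exact pow_le_pow_left₀ (by linarith) hyx _
      exact_mod_cast h1
    have hyK : y ^ K ≤ U := (Nat.pow_le_pow_right (by omega) (by omega)).trans hyU
    have hy2 : y ^ 2 ≤ U := (Nat.pow_le_pow_right (by omega) (by omega)).trans hyU
    have hysq : (y : ℝ) ≤ √U := by
      apply Real.le_sqrt_of_sq_le
      exact_mod_cast hy2
    have hlogy : Real.log U / (4 * K) ≤ Real.log y := by
      have h1 : Real.log (x / 2) ≤ Real.log y := Real.log_le_log (by positivity) hyx2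
      have h2 : Real.log (x / 2) = Real.log x - Real.log 2 := Real.log_div hx0.ne' (by norm_num)
      have h3 : 2 * Real.log 2 ≤ Real.log x := by
        have h4 : 2 * Real.log 2 = Real.log 4 := by
          rw [show (4 : ℝ) = 2 ^ 2 by norm_num, Real.log_pow]
          norm_num
        rw [h4]
        exact Real.log_le_log (by norm_num) hx4
      have h5 : Real.log U / (4 * K) = Real.log x / 2 := by
        rw [hlogx]
        field_simp
        ring
      rw [h5]
      linarith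
    -- the sieve
    have hper : ∀ p n, Q c l p n ↔ Q c l p (n % p) := Q_per c l
    have key := hup y U hy3 hyK (Q c l) hper (PS z y) (by
      intro p hp
      unfold PS at hp
      rw [mem_filter, mem_Icc] at hp
      exact ⟨hp.2.1, lt_of_le_of_lt hz0 hp.2.2, hp.1.2, nu_le_three hc hp.2.1
        (lt_of_le_of_lt hz2 hp.2.2)⟩)
    have hcard : #((range (U + 1)).filter (fun q => q.Prime ∧ ((c * q) ^ 2 + l ^ 2).Prime)) ≤
        (y + 1) + #((Icc 1 U).filter (fun n : ℕ => ∀ p ∈ PS z y, ¬ Q c l p n)) := by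
      have hsub : (range (U + 1)).filter (fun q => q.Prime ∧ ((c * q) ^ 2 + l ^ 2).Prime) ⊆
          range (y + 1) ∪ (Icc 1 U).filter (fun n : ℕ => ∀ p ∈ PS z y, ¬ Q c l p n) := by
        intro q hq
        rw [mem_filter, mem_range] at hq
        obtain ⟨hqU, hqp, hq2⟩ := hq
        rw [mem_union, mem_range]
        rcases Nat.lt_or_ge y q with h | h
        · right
          rw [mem_filter, mem_Icc]
          refine ⟨⟨hqp.one_lt.le, by omega⟩, fun p hp hQ => ?_⟩
          unfold PS at hp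
          rw [mem_filter, mem_Icc] at hp
          obtain ⟨⟨hp1, hpy⟩, hpp, hpz⟩ := hp
          rcases hQ with h1 | h1
          · have := (Nat.prime_dvd_prime_iff_eq hpp hqp).1 h1
            omega
          · have h2 := (Nat.prime_dvd_prime_iff_eq hpp hq2).1 h1
            have hc1 : 1 ≤ c := by omega
            have h3 : q ≤ (c * q) ^ 2 := by
              have h4 : q ≤ c * q := Nat.le_mul_of_pos_left q hc1
              have h5 : c * q ≤ (c * q) ^ 2 := Nat.le_self_pow (by norm_num) _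
              omega
            omega
        · left; omega
      refine (card_le_card hsub).trans ((card_union_le _ _).trans ?_)
      rw [card_range]
    have hprod' := hprod c l y hc hl hy3
    rw [← hR] at hprod'
    have hU0 : (0 : ℝ) ≤ U := by linarith
    have hlogy0 : 0 < Real.log y := Real.log_pos (by linarith)
    have h1 : C1 * R / (Real.log y) ^ 2 ≤ 16 * K ^ 2 * C1 * R / (Real.log U) ^ 2 := by
      rw [div_le_div_iff₀ (by positivity) (by positivity)]
      have h2 : Real.log U ≤ 4 * K * Real.log y := by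
        rw [div_le_iff₀ (by positivity)] at hlogy
        linarith
      have h3 : (Real.log U) ^ 2 ≤ (4 * K * Real.log y) ^ 2 := pow_le_pow_left₀ hlogU.le h2 2
      calc C1 * R * Real.log U ^ 2 ≤ C1 * R * (4 * K * Real.log y) ^ 2 := by gcongr
        _ = _ := by ring
    have hcount : (#((Icc 1 U).filter (fun n : ℕ => ∀ p ∈ PS z y, ¬ Q c l p n)) : ℝ) ≤
        32 * K ^ 2 * C1 * R * T + √U := by
      refine (le_trans (le_of_eq (by congr 1)) key).trans ?_
      have h4 : 2 * ((U : ℝ) * ∏ p ∈ PS z y, (1 - (nu (Q c l) p : ℝ) / p)) ≤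
          2 * (U * (16 * K ^ 2 * C1 * R / (Real.log U) ^ 2)) := by
        have h5 := hprod'.trans h1
        gcongr
      have h6 : 2 * ((U : ℝ) * (16 * K ^ 2 * C1 * R / (Real.log U) ^ 2)) =
          32 * K ^ 2 * C1 * R * T := by
        rw [hT]
        ring
      linarith
    have hcard' : (#((range (U + 1)).filter (fun q => q.Prime ∧ ((c * q) ^ 2 + l ^ 2).Prime)) : ℝ) ≤
        (y + 1) + #((Icc 1 U).filter (fun n : ℕ => ∀ p ∈ PS z y, ¬ Q c l p n)) := by
      exact_mod_cast hcard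
    have hsq := sqrt_le_div (show (1 : ℝ) < U by linarith)
    rw [← hT] at hsq
    have h7 : (1 : ℝ) ≤ √U := by linarith
    have h8 : (y : ℝ) + 1 + √U ≤ 48 * T * R := by
      have h9 : (y : ℝ) + 1 + √U ≤ 3 * √U := by linarith
      have h10 : 48 * T * 1 ≤ 48 * T * R := by gcongr
      linarith
    have h11 : 0 ≤ C2 * R * T := by
      have : 0 ≤ R := by linarith
      positivity
    calc (#((range (U + 1)).filter (fun q => q.Prime ∧ ((c * q) ^ 2 + l ^ 2).Prime)) : ℝ)
        ≤ (y + 1) + (32 * K ^ 2 * C1 * R * T + √U) := by linarith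
      _ ≤ 48 * T * R + 32 * K ^ 2 * C1 * R * T + C2 * R * T := by linarith
      _ = _ := by ring

end Pool.Agent.V8H35.TF
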