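import Pool.Agent.N792.ACH.Fin
import Pool.Agent.V8H35.TF.Db

/-!
# The two families for all but `L / (log L) ^ A` of the `l ≤ L`, with a relative error `O(1 / log u)`
-/

set_option autoImplicit false

open Finset Filter Topology

namespace Pool.Agent.V8H35.TF

open Pool.Agent.N792.ACH (D li li_ge SS_two SS_ge int_half Ps As Bs As_le Bs_le le_As le_Bs Ps_eq)
open Pool.Agent.N782.GN (SS PP pp c_ssl c_main almost_all)

/-- the partial products for `l = 1` are bounded -/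
theorem bounded : ∃ B : ℝ, ∀ z : ℕ, ∏ p ∈ (Icc 3 z).filter Nat.Prime, gf p ≤ B := by
  obtain ⟨B, hB⟩ := (c_ssl 1 (by norm_num)).1.bddAbove_range
  refine ⟨B, fun z => ?_⟩
  have h1 : pp 1 z ≤ B := hB ⟨z, rfl⟩
  refine le_trans (le_of_eq ?_) h1
  unfold pp
  apply prod_congr
  · ext p
    simp only [mem_filter]
    constructor
    · rintro ⟨h1, h2⟩
      refine ⟨h1, h2, fun h => ?_⟩
      have h3 : p ∣ 1 := by exact_mod_cast h
      exact h2.one_lt.ne' (Nat.dvd_one.1 h3)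
    · rintro ⟨h1, h2, -⟩; exact ⟨h1, h2⟩
  · intro p _; rfl

theorem D_le : ∃ C : ℝ, 0 < C ∧ ∀ c l U : ℕ, (c = 1 ∨ c = 2) → 0 < l → 2 ≤ U →
    (D c l U : ℝ) ≤ C * ((l : ℝ) / Nat.totient l) ^ 3 * (U / (Real.log U) ^ 2) := by
  obtain ⟨B, hB⟩ := bounded
  obtain ⟨C, hC, h⟩ := D_bound hB
  refine ⟨C, hC, fun c l U hc hl hU => ?_⟩
  unfold D
  exact h c l U hc hl hU

/-- the same with a real number -/
theorem D_real : ∃ C : ℝ, 0 < C ∧ ∀ (c l : ℕ) (u : ℝ), (c = 1 ∨ c = 2) → 0 < l → 4 ≤ u →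
    (D c l ⌊u⌋₊ : ℝ) ≤ C * ((l : ℝ) / Nat.totient l) ^ 3 * (u / (Real.log u) ^ 2) := by
  obtain ⟨C, hC, h⟩ := D_le
  refine ⟨4 * C, by positivity, fun c l u hc hl hu => ?_⟩
  have hU : 2 ≤ ⌊u⌋₊ := Nat.le_floor (by push_cast; linarith)
  have hUu : (⌊u⌋₊ : ℝ) ≤ u := Nat.floor_le (by linarith)
  have hUR : u / 2 ≤ (⌊u⌋₊ : ℝ) := by
    have : u - 1 < ⌊u⌋₊ := Nat.sub_one_lt_floor u
    linarith
  have hlogu : 0 < Real.log u := Real.log_pos (by linarith)
  have hlog : Real.log u / 2 ≤ Real.log ⌊u⌋₊ := by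
    have h1 : Real.log (u / 2) ≤ Real.log ⌊u⌋₊ := Real.log_le_log (by linarith) hUR
    have h2 : Real.log (u / 2) = Real.log u - Real.log 2 := Real.log_div (by linarith) (by norm_num)
    have h3 : 2 * Real.log 2 ≤ Real.log u := by
      have h4 : 2 * Real.log 2 = Real.log 4 := by
        rw [show (4 : ℝ) = 2 ^ 2 by norm_num, Real.log_pow]
        norm_num
      rw [h4]
      exact Real.log_le_log (by norm_num) hu
    linarith
  have hr0 : 0 ≤ ((l : ℝ) / Nat.totient l) ^ 3 := by positivity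
  refine (h c l ⌊u⌋₊ hc hl hU).trans ?_
  have h5 : (⌊u⌋₊ : ℝ) / (Real.log ⌊u⌋₊) ^ 2 ≤ 4 * (u / (Real.log u) ^ 2) := by
    have h6 : (Real.log u / 2) ^ 2 ≤ (Real.log ⌊u⌋₊) ^ 2 := pow_le_pow_left₀ (by linarith) hlog 2
    calc (⌊u⌋₊ : ℝ) / (Real.log ⌊u⌋₊) ^ 2 ≤ u / (Real.log u / 2) ^ 2 := by gcongr
      _ = _ := by field_simp; ring
  calc C * ((l : ℝ) / Nat.totient l) ^ 3 * ((⌊u⌋₊ : ℝ) / (Real.log ⌊u⌋₊) ^ 2)
      ≤ C * ((l : ℝ) / Nat.totient l) ^ 3 * (4 * (u / (Real.log u) ^ 2)) := by gcongr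
    _ = _ := by ring

lemma ratio_two {l : ℕ} (hl : 0 < l) :
    ((2 * l : ℕ) : ℝ) / Nat.totient (2 * l) ≤ 2 * ((l : ℝ) / Nat.totient l) := by
  have hphi : (0 : ℝ) < Nat.totient l := by exact_mod_cast Nat.totient_pos.2 hl
  have h1 : Nat.totient l ≤ Nat.totient (2 * l) :=
    Nat.le_of_dvd (Nat.totient_pos.2 (by omega)) (Nat.totient_dvd_of_dvd (Dvd.intro_left 2 rfl))
  have h2 : (Nat.totient l : ℝ) ≤ Nat.totient (2 * l) := by exact_mod_cast h1
  calc ((2 * l : ℕ) : ℝ) / Nat.totient (2 * l) ≤ ((2 * l : ℕ) : ℝ) / Nat.totient l := by gcongr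
    _ = _ := by push_cast; ring

/-- the conclusion for `l` -/
def Good (C ε L : ℝ) (l : ℕ) : Prop := ∀ u : ℝ, L ^ (1 + ε) ≤ u → u ≤ L ^ (3 / 2 - ε) →
  (Odd l → |(#(As l ⌊u⌋₊) : ℝ) - 1 / 2 * SS l * li u| ≤
    C * ((l : ℝ) / Nat.totient l) ^ 3 * (u / (Real.log u) ^ 2)) ∧
  |(#(Bs l ⌊u⌋₊) : ℝ) - 1 / 2 * SS l * li u| ≤
    C * ((l : ℝ) / Nat.totient l) ^ 3 * (u / (Real.log u) ^ 2)

/-- the numerical step -/
lemma step {C L u S P a d R : ℝ} {A : ℕ} (hC : 0 < C) (hL : 4 ≤ L) (hlogL1 : 1 ≤ Real.log L)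
    (hu1 : L ≤ u) (hu2 : u ≤ L ^ (3 / 2 : ℝ)) (hR : 1 ≤ R) (hA : 2 ≤ A)
    (hP : |P - S| ≤ u / Real.log L ^ A) (h3 : a ≤ P) (h4 : P ≤ a + 2 + d)
    (hd : d ≤ C * R * (u / Real.log u ^ 2)) :
    |a - S| ≤ (35 + C) * R * (u / Real.log u ^ 2) := by
  have hu4 : 4 ≤ u := hL.trans hu1
  have hlogu : 0 < Real.log u := Real.log_pos (by linarith)
  have hlogL : 0 < Real.log L := Real.log_pos (by linarith)
  obtain ⟨T, hT⟩ : ∃ T : ℝ, T = u / Real.log u ^ 2 := ⟨_, rfl⟩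
  have hT0 : 0 < T := by rw [hT]; positivity
  have h5 : Real.log u ≤ 3 / 2 * Real.log L := by
    have h6 := Real.log_le_log (by linarith) hu2
    rwa [Real.log_rpow (by linarith)] at h6
  have h7 : u / Real.log L ^ A ≤ 3 * T := by
    have h8 : Real.log L ^ 2 ≤ Real.log L ^ A := pow_le_pow_right₀ hlogL1 hA
    have h9 : u / Real.log L ^ A ≤ u / Real.log L ^ 2 := by gcongr
    refine h9.trans ?_
    rw [hT, ← mul_div_assoc, div_le_div_iff₀ (by positivity) (by positivity)]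
    have h10 : Real.log u ^ 2 ≤ (3 / 2 * Real.log L) ^ 2 := pow_le_pow_left₀ hlogu.le h5 2
    nlinarith [sq_nonneg (Real.log L)]
  have h11 : (1 : ℝ) ≤ 16 * T := by
    have h12 := sqrt_le_div (show (1 : ℝ) < u by linarith)
    rw [← hT] at h12
    have h13 : (1 : ℝ) ≤ √u := by
      rw [Real.one_le_sqrt]
      linarith
    linarith
  rw [← hT] at hd ⊢
  have h14 := abs_le.1 hP
  have h15 : 35 * T ≤ 35 * R * T := by nlinarith
  have h16 : 0 ≤ C * R * T := by positivity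
  rw [abs_le]
  constructor
  · nlinarith
  · nlinarith

open Classical in
/-- **the two families for all but few `l`** -/
theorem main {ε : ℝ} (hε : 0 < ε) (A : ℕ) : ∃ C : ℝ, 0 < C ∧ ∃ L₀ : ℝ, ∀ L : ℝ,
    L₀ ≤ L → (#((Icc 1 ⌊L⌋₊).filter (fun l => ¬ Good C ε L l)) : ℝ) ≤ L / Real.log L ^ A := by
  obtain ⟨C, hC, hD⟩ := D_real
  obtain ⟨L₁, hL₁3, hA1⟩ := almost_all c_main c_ssl ε (A + 2) hε
  obtain ⟨L₂, hL₂3, hA2⟩ := almost_all c_main c_ssl (ε / 2) (A + 2) (by positivity)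
  have hev : ∀ᶠ L : ℝ in atTop, 3 ≤ Real.log L := Real.tendsto_log_atTop.eventually_ge_atTop _
  have hev2 : ∀ᶠ L : ℝ in atTop, 4 ≤ L ^ (ε / 2) :=
    (tendsto_rpow_atTop (by positivity)).eventually_ge_atTop _
  obtain ⟨L₃, hL₃⟩ := eventually_atTop.1 (hev.and hev2)
  refine ⟨35 + 8 * C, by positivity, max (max L₁ L₂) (max L₃ 4), fun L hL => ?_⟩
  simp only [max_le_iff] at hL
  obtain ⟨⟨hLL1, hLL2⟩, hLL3, hL4⟩ := hL
  obtain ⟨hlog3, hrp⟩ := hL₃ L hLL3
  have hL0 : 0 < L := by linarith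
  have hlogpos : 0 < Real.log L := by linarith
  have hlog2L : Real.log L ≤ Real.log (2 * L) := Real.log_le_log hL0 (by linarith)
  obtain ⟨E1, hE1⟩ : ∃ E : Finset ℕ, E = (Icc 1 ⌊L⌋₊).filter (fun l : ℕ => ¬ ∀ u : ℝ, L ^ (1 + ε) ≤ u →
      u ≤ L ^ (3 / 2 - ε) → |PP (fun _ => 1) l ⌊u⌋₊ -
      SS l * ∫ t in (2 : ℝ)..u, 1 / (2 * Real.log t)| ≤ u / (Real.log L) ^ (A + 2)) := ⟨_, rfl⟩
  obtain ⟨E2, hE2⟩ : ∃ E : Finset ℕ, E = (Icc 1 ⌊2 * L⌋₊).filter (fun l : ℕ => ¬ ∀ u : ℝ, (2 * L) ^ (1 + ε / 2) ≤ u →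
      u ≤ (2 * L) ^ (3 / 2 - ε / 2) → |PP (fun _ => 1) l ⌊u⌋₊ -
      SS l * ∫ t in (2 : ℝ)..u, 1 / (2 * Real.log t)| ≤ u / (Real.log (2 * L)) ^ (A + 2)) := ⟨_, rfl⟩
  have c1 : (#E1 : ℝ) ≤ L / Real.log L ^ (A + 2) := by
    rw [hE1]
    exact le_trans (le_of_eq (by congr 1)) (hA1 L hLL1)
  have c2 : (#E2 : ℝ) ≤ 2 * L / Real.log L ^ (A + 2) := by
    rw [hE2]
    refine le_trans (le_of_eq (by congr 1)) ((hA2 (2 * L) (by linarith)).trans ?_)
    gcongr
  have hinj : Function.Injective (fun l : ℕ => 2 * l) := fun a b h => by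
    have : 2 * a = 2 * b := h
    omega
  have hsub : (Icc 1 ⌊L⌋₊).filter (fun l => ¬ Good (35 + 8 * C) ε L l) ⊆
      E1 ∪ (E2.preimage (fun l => 2 * l) hinj.injOn) := by
    intro l hl
    rw [mem_filter, mem_Icc] at hl
    obtain ⟨⟨hl1, hlL⟩, hbad⟩ := hl
    by_contra hcon
    simp only [mem_union, mem_preimage, not_or] at hcon
    obtain ⟨m1, m2⟩ := hcon
    rw [hE1, mem_filter, mem_Icc, not_and, not_not] at m1
    rw [hE2, mem_filter, mem_Icc, not_and, not_not] at m2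
    have g1 := m1 ⟨hl1, hlL⟩
    have h2l : 2 * l ≤ ⌊2 * L⌋₊ := by
      apply Nat.le_floor
      push_cast
      have : (l : ℝ) ≤ L := (Nat.cast_le.2 hlL).trans (Nat.floor_le hL0.le)
      linarith
    have g2 := m2 ⟨by omega, h2l⟩
    apply hbad
    intro u hua hub
    have hl0 : 0 < l := by omega
    have hR1 : 1 ≤ ((l : ℝ) / Nat.totient l) ^ 3 := one_le_pow₀ (one_le_ratio hl0)
    have hLu : L ≤ u := by
      refine le_trans ?_ hua
      calc L = L ^ (1 : ℝ) := (Real.rpow_one L).symm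
        _ ≤ L ^ (1 + ε) := Real.rpow_le_rpow_of_exponent_le (by linarith) (by linarith)
    have huL : u ≤ L ^ (3 / 2 : ℝ) := hub.trans (Real.rpow_le_rpow_of_exponent_le (by linarith) (by linarith))
    have hu4 : 4 ≤ u := hL4.trans hLu
    have hT0 : 0 ≤ u / Real.log u ^ 2 := by positivity
    constructor
    · intro hodd
      have k1 := g1 u hua hub
      rw [int_half, ← Ps_eq] at k1
      have e : SS l * (1 / 2 * li u) = 1 / 2 * SS l * li u := by ring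
      rw [e] at k1
      refine step (A := A + 2) (C := 8 * C) (by positivity) hL4 (by linarith) hLu huL hR1 (by omega) k1
        ?_ ?_ ((hD 2 l u (Or.inr rfl) hl0 hu4).trans ?_)
      · exact_mod_cast As_le l ⌊u⌋₊
      · exact_mod_cast le_As hodd ⌊u⌋₊
      · gcongr
        linarith
    · have hr1 : (2 * L) ^ (1 + ε / 2) ≤ u := by
        refine le_trans ?_ hua
        rw [Real.mul_rpow (by norm_num) hL0.le]
        rcases le_or_gt ε 1 with hε1 | hε1
        · have e1 : (2 : ℝ) ^ (1 + ε / 2) ≤ 4 := by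
            calc (2 : ℝ) ^ (1 + ε / 2) ≤ 2 ^ (2 : ℝ) :=
                  Real.rpow_le_rpow_of_exponent_le (by norm_num) (by linarith)
              _ = 4 := by norm_num
          calc (2 : ℝ) ^ (1 + ε / 2) * L ^ (1 + ε / 2) ≤ L ^ (ε / 2) * L ^ (1 + ε / 2) := by
                gcongr
                exact e1.trans hrp
            _ = L ^ (1 + ε) := by
                rw [← Real.rpow_add hL0]
                congr 1
                ring
        · exfalso
          have h1 := hua.trans hub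
          have h2 : L ^ (3 / 2 - ε) < L ^ (1 + ε) :=
            Real.rpow_lt_rpow_of_exponent_lt (by linarith) (by linarith)
          linarith
      have hr2 : u ≤ (2 * L) ^ (3 / 2 - ε / 2) := by
        refine hub.trans ?_
        have h1 := hua.trans hub
        have hε4 : 1 + ε ≤ 3 / 2 - ε := by
          by_contra hcon
          push Not at hcon
          have h2 : L ^ (3 / 2 - ε) < L ^ (1 + ε) :=
            Real.rpow_lt_rpow_of_exponent_lt (by linarith) (by linarith)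
          linarith
        calc L ^ (3 / 2 - ε) ≤ L ^ (3 / 2 - ε / 2) := Real.rpow_le_rpow_of_exponent_le (by linarith) (by linarith)
          _ ≤ (2 * L) ^ (3 / 2 - ε / 2) := Real.rpow_le_rpow hL0.le (by linarith) (by linarith)
      have k1 := g2 u hr1 hr2
      rw [int_half, ← Ps_eq, SS_two] at k1
      have e : SS l * (1 / 2 * li u) = 1 / 2 * SS l * li u := by ring
      rw [e] at k1
      have k2 : u / Real.log (2 * L) ^ (A + 2) ≤ u / Real.log L ^ (A + 2) := by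
        gcongr
      refine step (A := A + 2) (C := 8 * C) (by positivity) hL4 (by linarith) hLu huL hR1 (by omega)
        (k1.trans k2) ?_ ?_ ((hD 1 (2 * l) u (Or.inl rfl) (by omega) hu4).trans ?_)
      · exact_mod_cast Bs_le l ⌊u⌋₊
      · exact_mod_cast le_Bs ⌊u⌋₊
      · have hr := ratio_two hl0
        have hr3 : (((2 * l : ℕ) : ℝ) / Nat.totient (2 * l)) ^ 3 ≤ (2 * ((l : ℝ) / Nat.totient l)) ^ 3 :=
          pow_le_pow_left₀ (by positivity) hr 3
        calc C * (((2 * l : ℕ) : ℝ) / Nat.totient (2 * l)) ^ 3 * (u / Real.log u ^ 2)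
            ≤ C * (2 * ((l : ℝ) / Nat.totient l)) ^ 3 * (u / Real.log u ^ 2) := by gcongr
          _ = _ := by ring
  have p2 : #(E2.preimage (fun l => 2 * l) hinj.injOn) ≤ #E2 := by
    rw [← card_image_of_injective _ hinj]
    apply card_le_card
    intro x hx
    obtain ⟨y, hy, rfl⟩ := mem_image.1 hx
    exact mem_preimage.1 hy
  have hcard : #((Icc 1 ⌊L⌋₊).filter (fun l => ¬ Good (35 + 8 * C) ε L l)) ≤ #E1 + #E2 :=
    (card_le_card hsub).trans ((card_union_le _ _).trans (Nat.add_le_add le_rfl p2))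
  have hcard' : (#((Icc 1 ⌊L⌋₊).filter (fun l => ¬ Good (35 + 8 * C) ε L l)) : ℝ) ≤ #E1 + #E2 := by
    exact_mod_cast hcard
  refine (le_trans (le_of_eq (by congr 1)) hcard').trans ?_
  have h1 : L / Real.log L ^ (A + 2) + 2 * L / Real.log L ^ (A + 2) = 3 * L / Real.log L ^ (A + 2) := by
    ring
  have h2 : 3 * L / Real.log L ^ (A + 2) ≤ L / Real.log L ^ A := by
    rw [div_le_div_iff₀ (by positivity) (by positivity), pow_add]
    have h3 : 3 ≤ Real.log L ^ 2 := by nlinarith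
    have h4 : 0 ≤ L * Real.log L ^ A := by positivity
    nlinarith
  linarith

end Pool.Agent.V8H35.TF
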