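import Pool.Agent.Y959.Sv.Up
import Pool.Agent.Erdos456.Mertens

/-!
# The number of the primes `q ≤ U` for which `(c q)² + l²` is a prime, uniformly in `l`
-/

set_option autoImplicit false

namespace Pool.Agent.V8H35.TF

open Finset Pool.Agent.Y959.Sv

/-- the factor of an odd prime in the singular series of `m² + 1` -/
noncomputable def gf (p : ℕ) : ℝ := 1 - ((ZMod.χ₄ (p : ZMod 4) : ℤ) : ℝ) / ((p : ℝ) - 1)

/-- the conditions of the sieve -/
def Q (c l : ℕ) (p n : ℕ) : Prop := p ∣ n ∨ p ∣ (c * n) ^ 2 + l ^ 2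

lemma Q_per (c l p n : ℕ) : Q c l p n ↔ Q c l p (n % p) := by
  unfold Q
  have h1 : p ∣ n ↔ p ∣ n % p := by
    rw [Nat.dvd_iff_mod_eq_zero, Nat.dvd_iff_mod_eq_zero, Nat.mod_mod]
  have h2 : p ∣ (c * n) ^ 2 + l ^ 2 ↔ p ∣ (c * (n % p)) ^ 2 + l ^ 2 := by
    rw [← ZMod.natCast_eq_zero_iff, ← ZMod.natCast_eq_zero_iff]
    push_cast
    rw [ZMod.natCast_mod]
  rw [← h1, ← h2]

lemma chi_one {p : ℕ} (h : p % 4 = 1) : ((ZMod.χ₄ (p : ZMod 4) : ℤ) : ℝ) = 1 := by
  rw [ZMod.χ₄_nat_one_mod_four h]; norm_num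

lemma chi_three {p : ℕ} (h : p % 4 = 3) : ((ZMod.χ₄ (p : ZMod 4) : ℤ) : ℝ) = -1 := by
  rw [ZMod.χ₄_nat_three_mod_four h]; norm_num

lemma two_ne {p : ℕ} (hp : p.Prime) (h2 : 2 < p) : (2 : ZMod p) ≠ 0 := by
  have : ((2 : ℕ) : ZMod p) ≠ 0 := by
    rw [Ne, ZMod.natCast_eq_zero_iff]
    intro h
    have := Nat.le_of_dvd (by norm_num) h
    omega
  exact_mod_cast this

lemma c_ne {c p : ℕ} (hc : c = 1 ∨ c = 2) (hp : p.Prime) (h2 : 2 < p) : (c : ZMod p) ≠ 0 := by
  rcases hc with rfl | rfl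
  · haveI : Fact p.Prime := ⟨hp⟩
    rw [Nat.cast_one]; exact one_ne_zero
  · exact_mod_cast two_ne hp h2

/-- at most three classes -/
lemma nu_le_three {c l p : ℕ} (hc : c = 1 ∨ c = 2) (hp : p.Prime) (h2 : 2 < p) :
    nu (Q c l) p ≤ 3 := by
  classical
  haveI : Fact p.Prime := ⟨hp⟩
  unfold nu
  have hc0 := c_ne hc hp h2
  have hsub : (range p).filter (fun r => Q c l p r) ⊆
      {0} ∪ (range p).filter (fun r => p ∣ (c * r) ^ 2 + l ^ 2) := by
    intro r hr
    rw [mem_filter, mem_range] at hr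
    rw [mem_union, mem_singleton, mem_filter, mem_range]
    rcases hr.2 with h | h
    · left
      exact Nat.eq_zero_of_dvd_of_lt h hr.1
    · exact Or.inr ⟨hr.1, h⟩
  have hroots : ((range p).filter (fun r => p ∣ (c * r) ^ 2 + l ^ 2)).card ≤ 2 := by
    rcases (((range p).filter (fun r => p ∣ (c * r) ^ 2 + l ^ 2))).eq_empty_or_nonempty with h | ⟨r0, h0⟩
    · rw [h]; simp
    · have h3 : (range p).filter (fun r => p ∣ (c * r) ^ 2 + l ^ 2) ⊆
          {r0, (-(r0 : ZMod p)).val} := by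
        intro r hr
        rw [mem_filter, mem_range, ← ZMod.natCast_eq_zero_iff] at hr h0
        push_cast at hr h0
        have h4 : ((c : ZMod p) * ((r : ZMod p) - r0)) * (c * ((r : ZMod p) + r0)) = 0 := by
          linear_combination hr.2 - h0.2
        rw [mem_insert, mem_singleton]
        rcases mul_eq_zero.1 h4 with h5 | h5
        · left
          rcases mul_eq_zero.1 h5 with h6 | h6
          · exact absurd h6 hc0
          · have h7 : (r : ZMod p) = (r0 : ZMod p) := by linear_combination h6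
            have h8 := (ZMod.natCast_eq_natCast_iff' r r0 p).1 h7
            rwa [Nat.mod_eq_of_lt hr.1, Nat.mod_eq_of_lt h0.1] at h8
        · right
          rcases mul_eq_zero.1 h5 with h6 | h6
          · exact absurd h6 hc0
          · have h7 : (r : ZMod p) = -(r0 : ZMod p) := by linear_combination h6
            rw [← h7, ZMod.val_natCast, Nat.mod_eq_of_lt hr.1]
      exact (card_le_card h3).trans card_le_two
  refine (card_le_card hsub).trans ((card_union_le _ _).trans ?_)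
  rw [card_singleton]
  omega

lemma nu_ge_one {c l p : ℕ} (hp : p.Prime) : 1 ≤ nu (Q c l) p := by
  classical
  unfold nu
  rw [Nat.succ_le_iff, card_pos]
  exact ⟨0, by rw [mem_filter, mem_range]; exact ⟨hp.pos, Or.inl (dvd_zero p)⟩⟩

/-- three classes for the primes `≡ 1 mod 4` not dividing `l` -/
lemma nu_ge_three {c l p : ℕ} (hc : c = 1 ∨ c = 2) (hp : p.Prime) (h4 : p % 4 = 1) (hl : ¬ p ∣ l) :
    3 ≤ nu (Q c l) p := by
  classical
  haveI : Fact p.Prime := ⟨hp⟩
  have h2 : 2 < p := by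
    have := hp.two_le
    omega
  have hc0 := c_ne hc hp h2
  have h20 := two_ne hp h2
  have hl0 : (l : ZMod p) ≠ 0 := by rwa [Ne, ZMod.natCast_eq_zero_iff]
  obtain ⟨i, hi⟩ := ZMod.exists_sq_eq_neg_one_iff.2 (show p % 4 ≠ 3 by omega)
  have hi0 : i ≠ 0 := by
    rintro rfl
    rw [mul_zero, neg_eq_zero] at hi
    exact one_ne_zero hi
  obtain ⟨a, ha⟩ : ∃ a : ZMod p, (c : ZMod p) * a = l * i :=
    ⟨(c : ZMod p)⁻¹ * (l * i), by rw [← mul_assoc, mul_inv_cancel₀ hc0, one_mul]⟩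
  have ha0 : a ≠ 0 := by
    rintro rfl
    rw [mul_zero] at ha
    exact mul_ne_zero hl0 hi0 ha.symm
  have hroot : ∀ z : ZMod p, (z = a ∨ z = -a) → p ∣ (c * z.val) ^ 2 + l ^ 2 := by
    intro z hz
    rw [← ZMod.natCast_eq_zero_iff]
    push_cast
    rw [ZMod.natCast_zmod_val]
    have h5 : ((c : ZMod p) * z) ^ 2 = (c * a) ^ 2 := by rcases hz with rfl | rfl <;> ring
    rw [h5, ha]
    linear_combination (-(l : ZMod p) ^ 2) * hi
  have hv : ∀ z : ZMod p, z.val < p := fun z => ZMod.val_lt z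
  have hsub : ({0, a.val, (-a).val} : Finset ℕ) ⊆ (range p).filter (fun r => Q c l p r) := by
    intro r hr
    rw [mem_insert, mem_insert, mem_singleton] at hr
    rw [mem_filter, mem_range]
    rcases hr with rfl | rfl | rfl
    · exact ⟨hp.pos, Or.inl (dvd_zero p)⟩
    · exact ⟨hv _, Or.inr (hroot _ (Or.inl rfl))⟩
    · exact ⟨hv _, Or.inr (hroot _ (Or.inr rfl))⟩
  have h6 : ({0, a.val, (-a).val} : Finset ℕ).card = 3 := by
    rw [card_eq_three]
    refine ⟨0, a.val, (-a).val, ?_, ?_, ?_, rfl⟩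
    · intro h
      exact ha0 ((ZMod.val_eq_zero a).1 h.symm)
    · intro h
      exact ha0 (neg_eq_zero.1 ((ZMod.val_eq_zero (-a)).1 h.symm))
    · intro h
      have h7 := ZMod.val_injective p h
      have h8 : 2 * a = 0 := by linear_combination h7
      rcases mul_eq_zero.1 h8 with h9 | h9
      · exact h20 h9
      · exact ha0 h9
  unfold nu
  rw [← h6]
  exact card_le_card hsub

lemma gf_pos {p : ℕ} (hp : p.Prime) (h2 : 2 < p) : 0 < gf p := by
  have hpR : (3 : ℝ) ≤ p := by exact_mod_cast h2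
  have hp1 : (0 : ℝ) < (p : ℝ) - 1 := by linarith
  have h1 : (1 : ℝ) / ((p : ℝ) - 1) ≤ 1 / 2 := by
    rw [div_le_div_iff₀ hp1 (by norm_num)]; linarith
  have h0 : 0 < (1 : ℝ) / ((p : ℝ) - 1) := by positivity
  rcases hp.eq_two_or_odd with h | h
  · omega
  · have : p % 4 = 1 ∨ p % 4 = 3 := by omega
    rcases this with h | h
    · unfold gf; rw [chi_one h]; linarith
    · unfold gf; rw [chi_three h, neg_div]; linarith

/-- the factor of the sieve -/
lemma factor_le {c l p : ℕ} (hc : c = 1 ∨ c = 2) (hp : p.Prime) (h2 : 2 < p) :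
    1 - (nu (Q c l) p : ℝ) / p ≤
      (1 - 1 / (p : ℝ)) ^ 2 * gf p * (if p ∣ l then ((1 - 1 / (p : ℝ))⁻¹) ^ 3 else 1) := by
  have hpR : (3 : ℝ) ≤ p := by exact_mod_cast h2
  have hp0 : (0 : ℝ) < p := by linarith
  have hp1 : (0 : ℝ) < (p : ℝ) - 1 := by linarith
  have hodd : p % 4 = 1 ∨ p % 4 = 3 := by
    rcases hp.eq_two_or_odd with h | h
    · omega
    · omega
  have hnu1 : (1 : ℝ) ≤ nu (Q c l) p := by exact_mod_cast nu_ge_one hp
  have hnu1' : 1 - (nu (Q c l) p : ℝ) / p ≤ 1 - 1 / p := by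
    have : 1 / (p : ℝ) ≤ (nu (Q c l) p : ℝ) / p := by gcongr
    linarith
  by_cases hl : p ∣ l
  · rw [if_pos hl]
    refine hnu1'.trans ?_
    have e1 : (1 - 1 / (p : ℝ)) = (p - 1) / p := by field_simp
    have hg : ((p : ℝ) - 2) / (p - 1) ≤ gf p := by
      have e2 : ((p : ℝ) - 2) / (p - 1) = 1 - 1 / (p - 1) := by field_simp; ring
      rw [e2]
      unfold gf
      rcases hodd with h | h
      · rw [chi_one h]
      · rw [chi_three h, neg_div]
        have : 0 < (1 : ℝ) / ((p : ℝ) - 1) := by positivity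
        linarith
    have e3 : (1 - 1 / (p : ℝ)) ^ 2 * gf p * ((1 - 1 / (p : ℝ))⁻¹) ^ 3 = gf p * (p / (p - 1)) := by
      rw [e1]
      field_simp
    rw [e3, e1]
    refine le_trans ?_ (mul_le_mul_of_nonneg_right hg (by positivity))
    rw [div_mul_div_comm, div_le_div_iff₀ hp0 (by positivity)]
    nlinarith [sq_nonneg ((p : ℝ) - 3), mul_pos hp0 hp1]
  · rw [if_neg hl, mul_one]
    rcases hodd with h | h
    · have hnu3 : (3 : ℝ) ≤ nu (Q c l) p := by exact_mod_cast nu_ge_three hc hp h hl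
      have h5 : 1 - (nu (Q c l) p : ℝ) / p ≤ 1 - 3 / p := by
        have : 3 / (p : ℝ) ≤ (nu (Q c l) p : ℝ) / p := by gcongr
        linarith
      refine h5.trans ?_
      unfold gf
      rw [chi_one h]
      have e : (1 - 1 / (p : ℝ)) ^ 2 * (1 - 1 / ((p : ℝ) - 1)) = 1 - 3 / p + 2 / p ^ 2 := by
        field_simp
        ring
      rw [e]
      have : 0 ≤ 2 / (p : ℝ) ^ 2 := by positivity
      linarith
    · refine hnu1'.trans (le_of_eq ?_)
      unfold gf
      rw [chi_three h]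
      field_simp
      ring

/-- `l / φ(l)` as a product -/
lemma ratio_eq {l : ℕ} (hl : 0 < l) :
    (l : ℝ) / (Nat.totient l : ℝ) = ∏ p ∈ l.primeFactors, (1 - 1 / (p : ℝ))⁻¹ := by
  have hlR : (0 : ℝ) < l := by exact_mod_cast hl
  have hphi : (0 : ℝ) < Nat.totient l := by exact_mod_cast Nat.totient_pos.2 hl
  have h1 : (Nat.totient l : ℝ) = l * ∏ p ∈ l.primeFactors, (1 - 1 / (p : ℝ)) := by
    have h3 := congrArg (fun x : ℚ => (x : ℝ)) (Nat.totient_eq_mul_prod_factors l)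
    push_cast at h3
    rw [h3]
    simp [one_div]
  have h2 : ∏ p ∈ l.primeFactors, (1 - 1 / (p : ℝ)) = (Nat.totient l : ℝ) / l := by
    rw [h1]
    field_simp
  rw [prod_inv_distrib, h2, inv_div]

lemma one_le_ratio {l : ℕ} (hl : 0 < l) : 1 ≤ (l : ℝ) / (Nat.totient l : ℝ) := by
  have hphi : (0 : ℝ) < Nat.totient l := by exact_mod_cast Nat.totient_pos.2 hl
  rw [le_div_iff₀ hphi, one_mul]
  exact_mod_cast Nat.totient_le l

/-- the primes of the sieve -/
def PS (z y : ℕ) : Finset ℕ := (Icc 1 y).filter (fun p => p.Prime ∧ z < p)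

/-- the product over the primes of the sieve -/
lemma prod_le {B : ℝ} (hB : ∀ z : ℕ, ∏ p ∈ (Icc 3 z).filter Nat.Prime, gf p ≤ B) (z : ℕ)
    (hz : 2 ≤ z) : ∃ C : ℝ, 0 < C ∧ ∀ c l y : ℕ, (c = 1 ∨ c = 2) → 0 < l → 3 ≤ y →
      ∏ p ∈ PS z y, (1 - (nu (Q c l) p : ℝ) / p) ≤
        C * ((l : ℝ) / Nat.totient l) ^ 3 / (Real.log y) ^ 2 := by
  classical
  obtain ⟨C0, hC0⟩ := Pool.Agent.Erdos456.Mert.mertens_inv
  obtain ⟨G, hG⟩ : ∃ G : ℝ, G = ∏ p ∈ (Icc 3 z).filter Nat.Prime, gf p := ⟨_, rfl⟩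
  obtain ⟨S, hS⟩ : ∃ S : ℝ, S = ∑ p ∈ (Icc 1 z).filter Nat.Prime, (1 : ℝ) / p := ⟨_, rfl⟩
  have hG0 : 0 < G := by
    rw [hG]
    refine prod_pos fun p hp => ?_
    rw [mem_filter, mem_Icc] at hp
    exact gf_pos hp.2 (by omega)
  have hB0 : 0 < B := lt_of_lt_of_le hG0 (hG ▸ hB z)
  refine ⟨B / G * (Real.exp (C0 + S)) ^ 2, by positivity, fun c l y hc hl hy => ?_⟩
  have hyR : (3 : ℝ) ≤ y := by exact_mod_cast hy
  have hlog : 1 < Real.log y := by
    have h1 : Real.exp 1 < 3 := by have := Real.exp_one_lt_d9; linarith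
    rw [Real.lt_log_iff_exp_lt (by linarith)]
    linarith
  have hlog0 : 0 < Real.log y := by linarith
  have hmem : ∀ p ∈ PS z y, p.Prime ∧ z < p ∧ p ≤ y := by
    intro p hp
    unfold PS at hp
    rw [mem_filter, mem_Icc] at hp
    exact ⟨hp.2.1, hp.2.2, hp.1.2⟩
  have h3 : ∀ p ∈ PS z y, (3 : ℝ) ≤ p := by
    intro p hp
    have := (hmem p hp).2.1
    exact_mod_cast (by omega : 3 ≤ p)
  have hf0 : ∀ p ∈ PS z y, 0 ≤ 1 - 1 / (p : ℝ) ∧ 0 < 1 - 1 / (p : ℝ) := by
    intro p hp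
    have h4 := h3 p hp
    have h5 : 1 / (p : ℝ) ≤ 1 / 3 := by
      apply div_le_div_of_nonneg_left <;> linarith
    constructor <;> linarith
  -- the product of the bounds
  have step1 : ∏ p ∈ PS z y, (1 - (nu (Q c l) p : ℝ) / p) ≤
      ∏ p ∈ PS z y, ((1 - 1 / (p : ℝ)) ^ 2 * gf p *
        (if p ∣ l then ((1 - 1 / (p : ℝ))⁻¹) ^ 3 else 1)) := by
    apply prod_le_prod
    · intro p hp
      have hp0 : (0 : ℝ) < p := by linarith [h3 p hp]
      have h1 : (nu (Q c l) p : ℝ) / p ≤ 1 := by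
        rw [div_le_one hp0]; exact_mod_cast nu_le _ p
      linarith
    · intro p hp
      exact factor_le hc (hmem p hp).1 (by have := (hmem p hp).2.1; omega)
  rw [prod_mul_distrib, prod_mul_distrib] at step1
  -- the factors of `l`
  have step2 : ∏ p ∈ PS z y, (if p ∣ l then ((1 - 1 / (p : ℝ))⁻¹) ^ 3 else 1) ≤
      ((l : ℝ) / Nat.totient l) ^ 3 := by
    rw [← prod_filter, prod_pow, ratio_eq hl]
    have hsub : (PS z y).filter (fun p => p ∣ l) ⊆ l.primeFactors := by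
      intro p hp
      rw [mem_filter] at hp
      rw [Nat.mem_primeFactors]
      exact ⟨(hmem p hp.1).1, hp.2, hl.ne'⟩
    have h5 : ∀ p ∈ l.primeFactors, 1 ≤ (1 - 1 / (p : ℝ))⁻¹ := by
      intro p hp
      have hp2 : (2 : ℝ) ≤ p := by exact_mod_cast (Nat.prime_of_mem_primeFactors hp).two_le
      have h6 : 1 / (p : ℝ) ≤ 1 / 2 := by
        apply div_le_div_of_nonneg_left <;> linarith
      have h7 : 0 < 1 / (p : ℝ) := by positivity
      exact (one_le_inv₀ (by linarith)).2 (by linarith)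
    apply pow_le_pow_left₀
    · exact prod_nonneg fun p hp => (by
        have := (hf0 p (mem_filter.1 hp).1).2
        positivity)
    · rw [← prod_sdiff hsub]
      refine le_mul_of_one_le_left (prod_nonneg fun p hp => (by
        have := (hf0 p (mem_filter.1 hp).1).2
        positivity)) ?_
      calc (1 : ℝ) = ∏ _p ∈ l.primeFactors \ (PS z y).filter (fun p => p ∣ l), (1 : ℝ) :=
            prod_const_one.symm
        _ ≤ _ := prod_le_prod (fun _ _ => zero_le_one) (fun p hp => h5 p (mem_sdiff.1 hp).1)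
  -- the singular series
  have step3 : ∏ p ∈ PS z y, gf p ≤ B / G := by
    rcases Nat.lt_or_ge y z with hyz | hyz
    · have : PS z y = ∅ := by
        rw [eq_empty_iff_forall_notMem]
        intro p hp
        have := hmem p hp
        omega
      rw [this, prod_empty, le_div_iff₀ hG0, one_mul, hG]
      exact hB z
    · have e : (∏ p ∈ (Icc 3 z).filter Nat.Prime, gf p) * ∏ p ∈ PS z y, gf p =
          ∏ p ∈ (Icc 3 y).filter Nat.Prime, gf p := by
        rw [← prod_union]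
        · apply prod_congr _ (fun _ _ => rfl)
          ext p
          unfold PS
          simp only [mem_union, mem_filter, mem_Icc]
          constructor
          · rintro (⟨⟨h1, h2⟩, h3⟩ | ⟨⟨h1, h2⟩, h3, h4⟩)
            · exact ⟨⟨h1, by omega⟩, h3⟩
            · exact ⟨⟨by omega, h2⟩, h3⟩
          · rintro ⟨⟨h1, h2⟩, h3⟩
            rcases Nat.lt_or_ge z p with h | h
            · exact Or.inr ⟨⟨by omega, h2⟩, h3, h⟩
            · exact Or.inl ⟨⟨h1, h⟩, h3⟩
        · rw [disjoint_left]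
          intro p hp hp'
          have h1 := (mem_filter.1 hp).1
          rw [mem_Icc] at h1
          have h2 := (hmem p hp').2.1
          omega
      rw [le_div_iff₀ hG0, mul_comm, hG, e]
      exact hB y
  -- Mertens
  have step4 : ∏ p ∈ PS z y, (1 - 1 / (p : ℝ)) ≤ Real.exp (C0 + S) / Real.log y := by
    have h5 : ∏ p ∈ PS z y, (1 - 1 / (p : ℝ)) ≤ ∏ p ∈ PS z y, Real.exp (-(1 / (p : ℝ))) := by
      apply prod_le_prod
      · exact fun p hp => (hf0 p hp).1
      · intro p _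
        have := Real.add_one_le_exp (-(1 / (p : ℝ)))
        linarith
    rw [← Real.exp_sum, sum_neg_distrib] at h5
    refine h5.trans ?_
    have h6 : Real.log (Real.log y) - C0 - S ≤ ∑ p ∈ PS z y, 1 / (p : ℝ) := by
      have h7 := (abs_le.1 (hC0 y hy)).1
      have h8 : ∑ p ∈ (Icc 1 y).filter Nat.Prime, (1 : ℝ) / p ≤ S + ∑ p ∈ PS z y, 1 / (p : ℝ) := by
        rw [hS]
        have hsub : (Icc 1 y).filter Nat.Prime ⊆ (Icc 1 z).filter Nat.Prime ∪ PS z y := by
          intro p hp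
          unfold PS
          rw [mem_filter, mem_Icc] at hp
          rw [mem_union, mem_filter, mem_Icc, mem_filter, mem_Icc]
          rcases Nat.lt_or_ge z p with h | h
          · exact Or.inr ⟨hp.1, hp.2, h⟩
          · exact Or.inl ⟨⟨hp.1.1, h⟩, hp.2⟩
        refine (sum_le_sum_of_subset_of_nonneg hsub (fun _ _ _ => by positivity)).trans ?_
        have h9 := sum_union_inter (s₁ := (Icc 1 z).filter Nat.Prime) (s₂ := PS z y)
          (f := fun p : ℕ => (1 : ℝ) / p)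
        have h10 : 0 ≤ ∑ p ∈ (Icc 1 z).filter Nat.Prime ∩ PS z y, (1 : ℝ) / p :=
          sum_nonneg fun _ _ => by positivity
        linarith
      linarith
    calc Real.exp (-∑ p ∈ PS z y, 1 / (p : ℝ)) ≤ Real.exp (C0 + S - Real.log (Real.log y)) :=
          Real.exp_le_exp.2 (by linarith)
      _ = Real.exp (C0 + S) / Real.log y := by
          rw [Real.exp_sub, Real.exp_log hlog0]
  refine step1.trans ?_
  have n1 : 0 ≤ ∏ p ∈ PS z y, (1 - 1 / (p : ℝ)) := prod_nonneg fun p hp => (hf0 p hp).1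
  have n2 : 0 ≤ ∏ p ∈ PS z y, gf p := prod_nonneg fun p hp =>
    (gf_pos (hmem p hp).1 (by have := (hmem p hp).2.1; omega)).le
  have n3 : 0 ≤ ∏ p ∈ PS z y, (if p ∣ l then ((1 - 1 / (p : ℝ))⁻¹) ^ 3 else 1) := by
    refine prod_nonneg fun p hp => ?_
    split_ifs
    · have := (hf0 p hp).2
      positivity
    · exact zero_le_one
  rw [prod_pow]
  calc (∏ p ∈ PS z y, (1 - 1 / (p : ℝ))) ^ 2 * (∏ p ∈ PS z y, gf p) *
        ∏ p ∈ PS z y, (if p ∣ l then ((1 - 1 / (p : ℝ))⁻¹) ^ 3 else 1)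
      ≤ (Real.exp (C0 + S) / Real.log y) ^ 2 * (B / G) * ((l : ℝ) / Nat.totient l) ^ 3 := by
        gcongr
    _ = _ := by
        field_simp

end Pool.Agent.V8H35.TF
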